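import Pool.Agent.TH112.BL.Defs
import Pool.Agent.W654.Kron

/-!
Equidistribution of `⌊α_{k₀} n⌋ mod W` given the other residues, for an invariant mean
(job 4548 of helper112, written by helper993).
-/

set_option autoImplicit false

namespace Pool.Agent.TH993.BL

open Finset Filter Pool.Agent.TH112.BL

open scoped Classical in
/-- indicator functions -/
noncomputable def ind (P : ℕ → Prop) : ℕ → ℝ := fun n => if P n then 1 else 0

lemma ind_nonneg (P : ℕ → Prop) (n : ℕ) : 0 ≤ ind P n := by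
  unfold ind
  split_ifs <;> norm_num

lemma ind_le_one (P : ℕ → Prop) (n : ℕ) : ind P n ≤ 1 := by
  unfold ind
  split_ifs <;> norm_num

lemma ind_true {P : ℕ → Prop} {n : ℕ} (h : P n) : ind P n = 1 := if_pos h

lemma ind_false {P : ℕ → Prop} {n : ℕ} (h : ¬ P n) : ind P n = 0 := if_neg h

lemma ind_bd (P : ℕ → Prop) : Bd (ind P) :=
  ⟨1, fun n => by rw [abs_of_nonneg (ind_nonneg P n)]; exact ind_le_one P n⟩

lemma bd_add {φ ψ : ℕ → ℝ} (h1 : Bd φ) (h2 : Bd ψ) : Bd (fun n => φ n + ψ n) := by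
  obtain ⟨C, hC⟩ := h1
  obtain ⟨D, hD⟩ := h2
  exact ⟨C + D, fun n => (abs_add_le _ _).trans (add_le_add (hC n) (hD n))⟩

lemma bd_smul (c : ℝ) {φ : ℕ → ℝ} (h1 : Bd φ) : Bd (fun n => c * φ n) := by
  obtain ⟨C, hC⟩ := h1
  refine ⟨|c| * C, fun n => ?_⟩
  rw [abs_mul]
  exact mul_le_mul_of_nonneg_left (hC n) (abs_nonneg c)

lemma bd_shift (t : ℕ) {φ : ℕ → ℝ} (h1 : Bd φ) : Bd (fun n => φ (n + t)) := by
  obtain ⟨C, hC⟩ := h1
  exact ⟨C, fun n => hC _⟩

lemma bd_sum {ι : Type} (s : Finset ι) (φ : ι → ℕ → ℝ) (h : ∀ i ∈ s, Bd (φ i)) :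
    Bd (fun n => ∑ i ∈ s, φ i n) := by
  classical
  induction s using Finset.induction_on with
  | empty => exact ⟨0, fun n => by simp⟩
  | insert a s ha ih =>
    have h1 := bd_add (h a (mem_insert_self a s)) (ih fun i hi => h i (mem_insert_of_mem hi))
    simpa only [sum_insert ha] using h1

lemma m_mono (μ : LM) {φ ψ : ℕ → ℝ} (h1 : Bd φ) (h2 : Bd ψ) (h : ∀ n, φ n ≤ ψ n) :
    μ.m φ ≤ μ.m ψ := by
  have h3 : Bd (fun n => (-1) * φ n) := bd_smul _ h1
  have h4 := μ.nonneg (fun n => ψ n + (-1) * φ n) (bd_add h2 h3) (fun n => by linarith [h n])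
  rw [μ.add _ _ h2 h3, μ.smul (-1) φ h1] at h4
  linarith

lemma m_zero (μ : LM) : μ.m (fun _ => 0) = 0 := by
  have := μ.smul 0 (fun _ => 1) ⟨1, fun _ => by simp⟩
  simpa using this

lemma m_sum (μ : LM) {ι : Type} (s : Finset ι) (φ : ι → ℕ → ℝ) (h : ∀ i ∈ s, Bd (φ i)) :
    μ.m (fun n => ∑ i ∈ s, φ i n) = ∑ i ∈ s, μ.m (φ i) := by
  classical
  induction s using Finset.induction_on with
  | empty => simpa using m_zero μ
  | insert a s ha ih =>
    have h1 := h a (mem_insert_self a s)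
    have h2 : ∀ i ∈ s, Bd (φ i) := fun i hi => h i (mem_insert_of_mem hi)
    simp only [sum_insert ha]
    rw [μ.add _ _ h1 (bd_sum s φ h2), ih h2]

lemma m_shift (μ : LM) (t : ℕ) {φ : ℕ → ℝ} (h : Bd φ) : μ.m (fun n => φ (n + t)) = μ.m φ := by
  induction t with
  | zero => rfl
  | succ t ih =>
    have h2 := μ.shift (fun n => φ (n + t)) (bd_shift t h)
    rw [← ih, ← h2]
    congr 1
    funext n
    congr 1
    omega

/-- separation of the first multiples of an irrational number -/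
lemma sep (θ : ℝ) (hθ : Irrational θ) (K : ℕ) : ∃ δ : ℝ, 0 < δ ∧ ∀ i : ℕ, 1 ≤ i → i < K →
    2 * δ ≤ |(i : ℝ) * θ - round ((i : ℝ) * θ)| := by
  induction K with
  | zero => exact ⟨1, one_pos, fun i _ hi => absurd hi (by omega)⟩
  | succ K ih =>
    obtain ⟨δ, hδ, h⟩ := ih
    rcases Nat.eq_zero_or_pos K with hK | hK
    · exact ⟨1, one_pos, fun i h1 hi => absurd hi (by omega)⟩
    have hd : 0 < |(K : ℝ) * θ - round ((K : ℝ) * θ)| := by
      rw [abs_pos, sub_ne_zero]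
      intro he
      have h1 : Irrational ((K : ℝ) * θ) := hθ.natCast_mul (by omega)
      exact h1 ⟨((round ((K : ℝ) * θ) : ℤ) : ℚ), by push_cast; exact he.symm⟩
    refine ⟨min δ (|(K : ℝ) * θ - round ((K : ℝ) * θ)| / 2), lt_min hδ (by positivity), ?_⟩
    intro i h1 hi
    rcases Nat.lt_succ_iff_lt_or_eq.1 hi with hi | hi
    · have := min_le_left δ (|(K : ℝ) * θ - round ((K : ℝ) * θ)| / 2)
      have := h i h1 hi
      linarith
    · have := min_le_right δ (|(K : ℝ) * θ - round ((K : ℝ) * θ)| / 2)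
      rw [hi]
      linarith

/-- the boundary has small mass -/
lemma bdry (μ : LM) (θ : ℝ) (hθ : Irrational θ) (K : ℕ) (hK : 1 ≤ K) : ∃ δ : ℝ, 0 < δ ∧
    μ.m (ind fun n => |θ * n - round (θ * n)| < δ) ≤ 1 / K := by
  classical
  obtain ⟨δ, hδ, hs⟩ := sep θ hθ K
  refine ⟨δ, hδ, ?_⟩
  obtain ⟨P, hP⟩ : ∃ P : ℕ → Prop, P = fun n : ℕ => |θ * n - round (θ * n)| < δ := ⟨_, rfl⟩
  rw [← hP]
  have key : ∀ n i j : ℕ, i < j → j < K → P (n + i) → P (n + j) → False := by
    intro n i j hij hj h1 h2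
    rw [hP] at h1 h2
    have h3 := hs (j - i) (by omega) (by omega)
    have h4 := round_le (((j - i : ℕ) : ℝ) * θ)
      (round (θ * ((n + j : ℕ) : ℝ)) - round (θ * ((n + i : ℕ) : ℝ)))
    have h5 : ((j - i : ℕ) : ℝ) * θ -
        ((round (θ * ((n + j : ℕ) : ℝ)) - round (θ * ((n + i : ℕ) : ℝ)) : ℤ) : ℝ) =
        (θ * ((n + j : ℕ) : ℝ) - round (θ * ((n + j : ℕ) : ℝ))) -
        (θ * ((n + i : ℕ) : ℝ) - round (θ * ((n + i : ℕ) : ℝ))) := by
      rw [Nat.cast_sub hij.le]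
      push_cast
      ring
    rw [h5] at h4
    have h6 := abs_sub (θ * ((n + j : ℕ) : ℝ) - round (θ * ((n + j : ℕ) : ℝ)))
      (θ * ((n + i : ℕ) : ℝ) - round (θ * ((n + i : ℕ) : ℝ)))
    linarith
  have hsum : ∀ n : ℕ, ∑ j ∈ range K, ind P (n + j) ≤ 1 := by
    intro n
    by_cases h : ∃ j ∈ range K, P (n + j)
    · obtain ⟨j, hj, hPj⟩ := h
      rw [mem_range] at hj
      rw [sum_eq_single j]
      · exact ind_le_one P _
      · intro i hi hne
        rw [mem_range] at hi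
        apply ind_false
        intro hPi
        rcases lt_or_gt_of_ne hne with h1 | h1
        · exact key n i j h1 hj hPi hPj
        · exact key n j i h1 hi hPj hPi
      · intro h1
        exact absurd (mem_range.2 hj) h1
    · push Not at h
      rw [sum_eq_zero fun j hj => ind_false (h j hj)]
      exact zero_le_one
  have h1 : μ.m (fun n => ∑ j ∈ range K, ind P (n + j)) ≤ μ.m (fun _ => 1) :=
    m_mono μ (bd_sum (range K) (fun j n => ind P (n + j)) fun j _ => bd_shift j (ind_bd P))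
      ⟨1, fun _ => by simp⟩ hsum
  rw [μ.one, m_sum μ (range K) (fun j n => ind P (n + j)) fun j _ => bd_shift j (ind_bd P)] at h1
  simp only [m_shift μ _ (ind_bd P)] at h1
  rw [sum_const, card_range, nsmul_eq_mul] at h1
  have hK' : (0 : ℝ) < K := by exact_mod_cast hK
  rw [le_div_iff₀ hK']
  linarith

/-- floors away from the integers -/
lemma floor_add {x e δ : ℝ} (h : δ ≤ |x - round x|) (he : |e| < δ) : ⌊x + e⌋ = ⌊x⌋ := by
  rw [abs_lt] at he
  have h1 := h.trans (round_le x ⌊x⌋)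
  have h2 := h.trans (round_le x (⌊x⌋ + 1))
  have h3 := Int.floor_le x
  have h4 := Int.lt_floor_add_one x
  rw [abs_of_nonneg (by linarith)] at h1
  push_cast at h2
  rw [abs_of_nonpos (by linarith)] at h2
  rw [Int.floor_eq_iff]
  constructor <;> linarith

/-- Kronecker's theorem for our frequencies -/
lemma kron {κ : Type} [Fintype κ] (α : κ → ℝ) (k₀ : κ)
    (hind : α k₀ ∉ Submodule.span ℚ (insert (1 : ℝ) (α '' {k | k ≠ k₀})))
    (W : ℕ) (hW : 1 ≤ W) (δ : ℝ) (hδ : 0 < δ) :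
    ∃ t : ℕ, W ∣ t ∧ (∀ k, k ≠ k₀ → ∃ a : ℤ, |α k * t - W * a| < δ) ∧
      ∃ a : ℤ, |α k₀ * t - (W * a + 1)| < δ := by
  classical
  have hW' : (0 : ℝ) < W := by exact_mod_cast hW
  let z : UnitAddTorus (Option κ) := fun o => match o with
    | none => ((1 / W : ℝ) : UnitAddCircle)
    | some k => ((α k / W : ℝ) : UnitAddCircle)
  let x : UnitAddTorus (Option κ) := fun o => match o with
    | none => ((0 : ℝ) : UnitAddCircle)
    | some k => if k = k₀ then ((1 / W : ℝ) : UnitAddCircle) else ((0 : ℝ) : UnitAddCircle)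
  have hz : ∀ m : Option κ → ℤ, ∑ i, m i • z i = 0 → ∑ i, m i • x i = 0 := by
    intro m hm
    have e1 : ∑ i, m i • z i =
        ((m none * (1 / W) + ∑ k, m (some k) * (α k / W) : ℝ) : UnitAddCircle) := by
      rw [Fintype.sum_option]
      let π : ℝ →+ UnitAddCircle := QuotientAddGroup.mk' (AddSubgroup.zmultiples (1 : ℝ))
      have hπ : ∀ r : ℝ, (r : UnitAddCircle) = π r := fun r => rfl
      show m none • π (1 / W) + ∑ k, m (some k) • π (α k / W) =
        π (m none * (1 / W) + ∑ k, m (some k) * (α k / W))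
      simp only [map_add, map_sum, ← map_zsmul, zsmul_eq_mul]
    rw [e1, AddCircle.coe_eq_zero_iff] at hm
    obtain ⟨N, hN⟩ := hm
    rw [zsmul_eq_mul, mul_one] at hN
    have hm0 : m (some k₀) = 0 := by
      by_contra hne
      apply hind
      have hne' : ((m (some k₀) : ℤ) : ℝ) ≠ 0 := by exact_mod_cast hne
      have hneq : ((m (some k₀) : ℤ) : ℚ) ≠ 0 := by exact_mod_cast hne
      have e2 : (W : ℝ) * N = m none + ∑ k, m (some k) * α k := by
        rw [hN, mul_add, mul_sum]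
        congr 1
        · field_simp
        · refine sum_congr rfl fun k _ => ?_
          field_simp
      rw [← add_sum_erase univ _ (mem_univ k₀)] at e2
      have e3 : α k₀ = ((m (some k₀) : ℤ) : ℚ)⁻¹ • ((((W : ℤ) * N - m none : ℤ) : ℚ) • (1 : ℝ) -
          ∑ k ∈ univ.erase k₀, ((m (some k) : ℤ) : ℚ) • α k) := by
        simp only [Rat.smul_def]
        push_cast
        rw [eq_inv_mul_iff_mul_eq₀ hne']
        linarith
      rw [e3]
      refine Submodule.smul_mem _ _ (Submodule.sub_mem _ ?_ ?_)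
      · exact Submodule.smul_mem _ _ (Submodule.subset_span (Set.mem_insert _ _))
      · refine Submodule.sum_mem _ fun k hk => Submodule.smul_mem _ _ (Submodule.subset_span ?_)
        exact Set.mem_insert_of_mem _ ⟨k, ne_of_mem_erase hk, rfl⟩
    rw [Fintype.sum_option]
    have e4 : m none • x none = 0 := by
      show m none • ((0 : ℝ) : UnitAddCircle) = 0
      rw [AddCircle.coe_zero, smul_zero]
    rw [e4, zero_add]
    refine sum_eq_zero fun k _ => ?_
    show m (some k) • (if k = k₀ then ((1 / W : ℝ) : UnitAddCircle) else ((0 : ℝ) : UnitAddCircle)) = 0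
    split_ifs with h
    · rw [h, hm0, zero_smul]
    · rw [AddCircle.coe_zero, smul_zero]
  obtain ⟨t, ht⟩ := Pool.Agent.W654.Kron.kronecker z x hz (min (δ / W) (1 / W)) (by positivity)
  have hco : ∀ o, dist (t • z o) (x o) < min (δ / W) (1 / W) := fun o =>
    (dist_le_pi_dist (t • z) x o).trans_lt ht
  have hd : ∀ y c : ℝ, dist (t • (y : UnitAddCircle)) (c : UnitAddCircle) =
      |(t : ℝ) * y - c - round ((t : ℝ) * y - c)| := by
    intro y c
    rw [dist_eq_norm, ← UnitAddCircle.norm_eq]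
    congr 1
    let π : ℝ →+ UnitAddCircle := QuotientAddGroup.mk' (AddSubgroup.zmultiples (1 : ℝ))
    show t • π y - π c = π ((t : ℝ) * y - c)
    rw [map_sub, ← map_nsmul, nsmul_eq_mul]
  have hscale : ∀ (u c : ℝ) (a : ℤ), |(t : ℝ) * (u / W) - c - a| < δ / W →
      |u * t - (W * a + W * c)| < δ := by
    intro u c a h
    have e : u * t - (W * a + W * c) = W * ((t : ℝ) * (u / W) - c - a) := by
      field_simp
      ring
    rw [e, abs_mul, abs_of_pos hW']
    calc (W : ℝ) * |(t : ℝ) * (u / W) - c - a| < W * (δ / W) := mul_lt_mul_of_pos_left h hW'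
      _ = δ := mul_div_cancel₀ _ hW'.ne'
  refine ⟨t, ?_, ?_, ?_⟩
  · have h1 := (hco none).trans_le (min_le_right _ _)
    rw [show z none = ((1 / W : ℝ) : UnitAddCircle) from rfl,
      show x none = ((0 : ℝ) : UnitAddCircle) from rfl, hd] at h1
    set a : ℤ := round ((t : ℝ) * (1 / W) - 0) with ha
    have h2 : |(t : ℝ) - W * a| < 1 := by
      have e : (t : ℝ) - W * a = W * ((t : ℝ) * (1 / W) - 0 - a) := by
        field_simp
        ring
      rw [e, abs_mul, abs_of_pos hW']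
      calc (W : ℝ) * |(t : ℝ) * (1 / W) - 0 - a| < W * (1 / W) := mul_lt_mul_of_pos_left h1 hW'
        _ = 1 := mul_div_cancel₀ _ hW'.ne'
    have h3 : |(t : ℤ) - W * a| < 1 := by exact_mod_cast h2
    rw [Int.abs_lt_one_iff] at h3
    have h4 : (W : ℤ) ∣ (t : ℤ) := ⟨a, by linarith⟩
    exact_mod_cast h4
  · intro k hk
    have h1 := (hco (some k)).trans_le (min_le_left _ _)
    rw [show z (some k) = ((α k / W : ℝ) : UnitAddCircle) from rfl,
      show x (some k) = ((0 : ℝ) : UnitAddCircle) from if_neg hk, hd] at h1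
    refine ⟨round ((t : ℝ) * (α k / W) - 0), ?_⟩
    have := hscale _ _ _ h1
    rwa [mul_zero, add_zero] at this
  · have h1 := (hco (some k₀)).trans_le (min_le_left _ _)
    rw [show z (some k₀) = ((α k₀ / W : ℝ) : UnitAddCircle) from rfl,
      show x (some k₀) = ((1 / W : ℝ) : UnitAddCircle) from if_pos rfl, hd] at h1
    refine ⟨round ((t : ℝ) * (α k₀ / W) - 1 / W), ?_⟩
    have := hscale _ _ _ h1
    rwa [mul_one_div_cancel hW'.ne'] at this

/-- the residues of the floors after the shift -/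
lemma floor_shift {α δ e : ℝ} (hα : 0 < α) {n t W : ℕ} {a c : ℤ}
    (hn : δ ≤ |α * n - round (α * n)|) (he : |e| < δ) (ht : α * t = W * a + c + e) :
    ∃ b : ℤ, (⌊α * ((n + t : ℕ) : ℝ)⌋₊ : ℤ) = ⌊α * (n : ℝ)⌋₊ + c + W * b := by
  refine ⟨a, ?_⟩
  rw [Int.natCast_floor_eq_floor (by positivity), Int.natCast_floor_eq_floor (by positivity)]
  have e1 : α * ((n + t : ℕ) : ℝ) = (α * n + e) + ((W * a + c : ℤ) : ℝ) := by
    push_cast
    rw [mul_add, ht]
    ring
  rw [e1, Int.floor_add_intCast, floor_add hn he]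
  ring

lemma mod_of {M N W : ℕ} {c : ℕ} {b : ℤ} (h : (M : ℤ) = N + c + W * b) : M % W = (N + c) % W := by
  have h1 : ((M % W : ℕ) : ℤ) = (((N + c) % W : ℕ) : ℤ) := by
    push_cast
    rw [h, Int.add_mul_emod_self_left]
  exact_mod_cast h1

lemma succ_mod {N W r : ℕ} (hr : r + 1 < W) : (N + 1) % W = r + 1 ↔ N % W = r := by
  have hW : 0 < W := by omega
  have h1 : N % W < W := Nat.mod_lt N hW
  have h2 : (N + 1) % W = (N % W + 1) % W := by rw [Nat.mod_add_mod]
  rw [h2]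
  rcases Nat.lt_or_ge (N % W + 1) W with h | h
  · rw [Nat.mod_eq_of_lt h]
    omega
  · have h3 : N % W + 1 = W := by omega
    rw [h3, Nat.mod_self]
    omega

section main

variable {κ : Type} [Fintype κ]

/-- the condition on the other residues -/
def A (α : κ → ℝ) (k₀ : κ) (W : ℕ) (v : κ → ℕ) (v₀ : ℕ) (n : ℕ) : Prop :=
  n % W = v₀ ∧ ∀ k, k ≠ k₀ → ⌊α k * (n : ℝ)⌋₊ % W = v k

/-- all conditions -/
def B (α : κ → ℝ) (k₀ : κ) (W : ℕ) (v : κ → ℕ) (v₀ r : ℕ) (n : ℕ) : Prop :=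
  A α k₀ W v v₀ n ∧ ⌊α k₀ * (n : ℝ)⌋₊ % W = r

lemma step (μ : LM) (α : κ → ℝ) (hpos : ∀ k, 0 < α k)
    (hirr : ∀ k, Irrational (α k)) (k₀ : κ)
    (hind : α k₀ ∉ Submodule.span ℚ (insert (1 : ℝ) (α '' {k | k ≠ k₀})))
    (W : ℕ) (v : κ → ℕ) (v₀ r : ℕ) (hr : r + 1 < W) :
    μ.m (ind (B α k₀ W v v₀ (r + 1))) = μ.m (ind (B α k₀ W v v₀ r)) := by
  classical
  have hbound : ∀ K : ℕ, 1 ≤ K →
      |μ.m (ind (B α k₀ W v v₀ (r + 1))) - μ.m (ind (B α k₀ W v v₀ r))| ≤
        (Fintype.card κ : ℝ) / K := by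
    intro K hK
    choose δ hδ hm using fun k => bdry μ (α k) (hirr k) K hK
    obtain ⟨k₁, -, hk₁⟩ := exists_min_image univ δ ⟨k₀, mem_univ k₀⟩
    obtain ⟨d, hd⟩ : ∃ d : ℝ, d = δ k₁ := ⟨_, rfl⟩
    have hd0 : 0 < d := hd ▸ hδ k₁
    obtain ⟨E, hE⟩ : ∃ E : κ → ℕ → Prop,
      E = fun (k : κ) (n : ℕ) => |α k * (n : ℝ) - round (α k * (n : ℝ))| < d := ⟨_, rfl⟩
    have hEm : ∀ k, μ.m (ind (E k)) ≤ 1 / K := by
      intro k
      refine (m_mono μ (ind_bd _) (ind_bd _) fun n => ?_).trans (hm k)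
      by_cases h : E k n
      · rw [ind_true h, ind_true]
        rw [hE] at h
        exact h.trans_le (hd ▸ hk₁ k (mem_univ k))
      · rw [ind_false h]
        exact ind_nonneg _ _
    obtain ⟨t, htW, ht, ht0⟩ := kron α k₀ hind W (by omega) d hd0
    have hiff : ∀ n : ℕ, (∀ k, ¬ E k n) →
        (B α k₀ W v v₀ (r + 1) (n + t) ↔ B α k₀ W v v₀ r n) := by
      intro n hn
      have hn' : ∀ k, d ≤ |α k * (n : ℝ) - round (α k * (n : ℝ))| := by
        intro k
        have := hn k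
        rw [hE] at this
        exact not_lt.1 this
      have h0 : (n + t) % W = n % W := by
        obtain ⟨q, rfl⟩ := htW
        exact Nat.add_mul_mod_self_left n W q
      have h1 : ∀ k, k ≠ k₀ → ⌊α k * ((n + t : ℕ) : ℝ)⌋₊ % W = ⌊α k * (n : ℝ)⌋₊ % W := by
        intro k hk
        obtain ⟨a, ha⟩ := ht k hk
        obtain ⟨b, hb⟩ := floor_shift (hpos k) (c := 0) (hn' k) ha
          (W := W) (a := a) (t := t) (by push_cast; ring)
        have := mod_of (c := 0) (b := b) (W := W) (by simpa using hb)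
        simpa using this
      have h2 : ⌊α k₀ * ((n + t : ℕ) : ℝ)⌋₊ % W = (⌊α k₀ * (n : ℝ)⌋₊ + 1) % W := by
        obtain ⟨a, ha⟩ := ht0
        obtain ⟨b, hb⟩ := floor_shift (hpos k₀) (c := 1) (hn' k₀) ha
          (W := W) (a := a) (t := t) (by push_cast; ring)
        exact mod_of (c := 1) (b := b) (W := W) (by simpa using hb)
      unfold B A
      rw [h0, h2, succ_mod hr]
      constructor
      · rintro ⟨⟨h3, h4⟩, h5⟩
        exact ⟨⟨h3, fun k hk => by rw [← h1 k hk]; exact h4 k hk⟩, h5⟩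
      · rintro ⟨⟨h3, h4⟩, h5⟩
        exact ⟨⟨h3, fun k hk => by rw [h1 k hk]; exact h4 k hk⟩, h5⟩
    have hS : Bd (fun n => ∑ k, ind (E k) n) := bd_sum univ (fun k => ind (E k)) fun k _ => ind_bd _
    have hSm : μ.m (fun n => ∑ k, ind (E k) n) ≤ (Fintype.card κ : ℝ) / K := by
      rw [m_sum μ univ (fun k => ind (E k)) fun k _ => ind_bd _]
      refine (sum_le_sum fun k _ => hEm k).trans (le_of_eq ?_)
      rw [sum_const, card_univ, nsmul_eq_mul]
      ring
    have hpt : ∀ n : ℕ, ind (B α k₀ W v v₀ (r + 1)) (n + t) ≤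
          ind (B α k₀ W v v₀ r) n + ∑ k, ind (E k) n ∧
        ind (B α k₀ W v v₀ r) n ≤
          ind (B α k₀ W v v₀ (r + 1)) (n + t) + ∑ k, ind (E k) n := by
      intro n
      by_cases h : ∀ k, ¬ E k n
      · have h1 : ind (B α k₀ W v v₀ (r + 1)) (n + t) = ind (B α k₀ W v v₀ r) n := by
          unfold ind
          simp only [hiff n h]
        have h2 : 0 ≤ ∑ k, ind (E k) n := sum_nonneg fun k _ => ind_nonneg _ _
        rw [h1]
        constructor <;> linarith
      · push Not at h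
        obtain ⟨k, hk⟩ := h
        have h2 : 1 ≤ ∑ k, ind (E k) n := by
          rw [← ind_true hk]
          exact single_le_sum (f := fun k => ind (E k) n) (fun k _ => ind_nonneg _ _) (mem_univ k)
        have h3 := ind_le_one (B α k₀ W v v₀ (r + 1)) (n + t)
        have h4 := ind_le_one (B α k₀ W v v₀ r) n
        have h5 := ind_nonneg (B α k₀ W v v₀ (r + 1)) (n + t)
        have h6 := ind_nonneg (B α k₀ W v v₀ r) n
        constructor <;> linarith
    have hb1 := ind_bd (B α k₀ W v v₀ (r + 1))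
    have hb0 := ind_bd (B α k₀ W v v₀ r)
    have g1 := m_mono μ (bd_shift t hb1) (bd_add hb0 hS) fun n => (hpt n).1
    have g2 := m_mono μ hb0 (bd_add (bd_shift t hb1) hS) fun n => (hpt n).2
    rw [μ.add _ _ hb0 hS, m_shift μ t hb1] at g1
    rw [μ.add _ _ (bd_shift t hb1) hS, m_shift μ t hb1] at g2
    rw [abs_le]
    constructor <;> linarith
  by_contra hne
  have hpos' : 0 < |μ.m (ind (B α k₀ W v v₀ (r + 1))) - μ.m (ind (B α k₀ W v v₀ r))| :=
    abs_pos.2 (sub_ne_zero.2 hne)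
  obtain ⟨K, hK⟩ := exists_nat_gt ((Fintype.card κ : ℝ) /
    |μ.m (ind (B α k₀ W v v₀ (r + 1))) - μ.m (ind (B α k₀ W v v₀ r))|)
  have hK0 : (0 : ℝ) < K := lt_of_le_of_lt (by positivity) hK
  have h1 := hbound K (by exact_mod_cast hK0)
  rw [le_div_iff₀ hK0] at h1
  rw [div_lt_iff₀ hpos'] at hK
  linarith

end main

open scoped Classical in
theorem equi (μ : LM) {κ : Type} [Fintype κ] (α : κ → ℝ) (hpos : ∀ k, 0 < α k)
    (hirr : ∀ k, Irrational (α k)) (k₀ : κ)
    (hind : α k₀ ∉ Submodule.span ℚ (insert (1 : ℝ) (α '' {k | k ≠ k₀})))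
    (W : ℕ) (hW : 1 ≤ W) (v : κ → ℕ) (v₀ r : ℕ) (hr : r < W) :
    μ.m (fun n => if (n % W = v₀ ∧ ∀ k, k ≠ k₀ → ⌊α k * (n : ℝ)⌋₊ % W = v k) ∧
        ⌊α k₀ * (n : ℝ)⌋₊ % W = r then 1 else 0) =
      (1 / (W : ℝ)) *
        μ.m (fun n => if n % W = v₀ ∧ ∀ k, k ≠ k₀ → ⌊α k * (n : ℝ)⌋₊ % W = v k then 1 else 0) := by
  have e1 : (fun n : ℕ => if (n % W = v₀ ∧ ∀ k, k ≠ k₀ → ⌊α k * (n : ℝ)⌋₊ % W = v k) ∧
        ⌊α k₀ * (n : ℝ)⌋₊ % W = r then (1 : ℝ) else 0) = ind (B α k₀ W v v₀ r) := by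
    funext n
    unfold ind B A
    congr!
  have e2 : (fun n : ℕ => if n % W = v₀ ∧ ∀ k, k ≠ k₀ → ⌊α k * (n : ℝ)⌋₊ % W = v k then
      (1 : ℝ) else 0) = ind (A α k₀ W v v₀) := by
    funext n
    unfold ind A
    congr!
  rw [e1, e2]
  have hconst : ∀ s : ℕ, s < W →
      μ.m (ind (B α k₀ W v v₀ s)) = μ.m (ind (B α k₀ W v v₀ 0)) := by
    intro s
    induction s with
    | zero => intro _; rfl
    | succ s ih =>
      intro hs
      rw [step μ α hpos hirr k₀ hind W v v₀ s hs, ih (by omega)]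
  have hsum : ind (A α k₀ W v v₀) = fun n => ∑ s ∈ range W, ind (B α k₀ W v v₀ s) n := by
    funext n
    by_cases h : A α k₀ W v v₀ n
    · rw [ind_true h, sum_eq_single (⌊α k₀ * (n : ℝ)⌋₊ % W)]
      · exact (ind_true ⟨h, rfl⟩).symm
      · intro s _ hne
        exact ind_false fun h1 => hne h1.2.symm
      · intro h1
        exact absurd (mem_range.2 (Nat.mod_lt _ (by omega))) h1
    · rw [ind_false h, sum_eq_zero fun s _ => ind_false fun h1 => h h1.1]
  rw [hsum, m_sum μ (range W) (fun s => ind (B α k₀ W v v₀ s)) fun s _ => ind_bd _,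
    sum_congr rfl fun s hs => hconst s (mem_range.1 hs), sum_const, card_range, nsmul_eq_mul,
    hconst r hr]
  have hW' : (W : ℝ) ≠ 0 := by
    have : (0 : ℝ) < W := by exact_mod_cast hW
    exact this.ne'
  field_simp

end Pool.Agent.TH993.BL
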